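import Pool.Agent.Lib.H1F.Final2

/-!
# MP_09f1ef_ag: flips of klt threefolds do not lift

For every prime `p ≥ 5` and every algebraically closed field `k` of characteristic `p` there is a
klt threefold `(X, Δ)` over `k` and a `(K_X + Δ)`-flip `X → Y ← X'`, such that `X` lifts over
`W_m(k)` for all `m ≥ 1`, but the flip `X'` does not lift over `W_2(k)`.  So there is no constant
`p₀` as in Q1.

The structure morphisms over `k` are `t : Y ⟶ Spec k`, `f ≫ t : X ⟶ Spec k` and
`f' ≫ t : X' ⟶ Spec k`.  All definitions are in `Pool/Agent/Lib/H1F/Stmt.lean`; the construction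
and the proof are explained in `Pool/Agent/Lib/H1F/PROOF.md`.
-/

open CategoryTheory AlgebraicGeometry Flip

universe u

namespace Pool.Agent.Results.MP_09f1ef_ag.FlipsDoNotLift

theorem result (p : ℕ) [Fact p.Prime] (hp : 5 ≤ p) (k : Type u) [Field k] [IsAlgClosed k]
    [CharP k p] :
    ∃ (X Y X' : Scheme.{u}) (_ : IsIntegral X) (_ : IsLocallyNoetherian X) (_ : IsIntegral Y)
      (_ : IsLocallyNoetherian Y) (_ : IsIntegral X') (_ : IsLocallyNoetherian X')
      (t : Y ⟶ Spec (CommRingCat.of k)) (f : X ⟶ Y) (f' : X' ⟶ Y) (Δ : X → ℚ) (Δ' : X' → ℚ),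
      KltThreefold (f ≫ t) Δ ∧ IsFlip t f f' Δ Δ' ∧
      (∀ (m : ℕ) (hm : 0 < m), LiftsOver p m hm (f ≫ t)) ∧
      ¬ LiftsOver p 2 Nat.two_pos (f' ≫ t) :=
  H1F.exists_example' p hp k

end Pool.Agent.Results.MP_09f1ef_ag.FlipsDoNotLift
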